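import Mathlib

/-!
# The N-critical graph of a product of three pairwise permutable subgroups

The group is `AGL(3, 2)`, of order 1344, acting on eight points. It is the product of a dihedral
group `A` of order eight, a Frobenius group `B` of order 21 and a regular dihedral group `C` of
order eight, which are pairwise permutable; `A B` and `B C` are isomorphic to `GL(3, 2)` and `A C`
is a `2`-group, so none of them has a Schmidt `(2, 7)`-subgroup, but `AGL(3, 2)` has one.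
-/

set_option autoImplicit false
set_option maxRecDepth 100000

namespace Pool.Agent.Results.MP_19cc1b_al.ThreeFactors

open Pointwise

/-- `S` is a Schmidt `(p, q)`-group: it is not nilpotent, all its proper subgroups are nilpotent,
the prime divisors of its order are `p` and `q`, and it has a normal Sylow `p`-subgroup. -/
def IsSchmidt (p q : ℕ) (S : Type*) [Group S] : Prop :=
  ¬ Group.IsNilpotent S ∧ (∀ T : Subgroup S, T ≠ ⊤ → Group.IsNilpotent T) ∧
    (Nat.card S).primeFactors = {p, q} ∧ ∃ P : Sylow p S, (P : Subgroup S).Normal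

section general

variable {Γ : Type*} [Group Γ]

theorem mem_closure_pair {ι : Type*} (s t : Γ) (f : ι → Γ) (h1 : ∃ i, 1 = f i)
    (hs : ∀ i, ∃ j, s * f i = f j) (hs' : ∀ i, ∃ j, s⁻¹ * f i = f j)
    (ht : ∀ i, ∃ j, t * f i = f j) (ht' : ∀ i, ∃ j, t⁻¹ * f i = f j)
    (g : Γ) (hg : g ∈ Subgroup.closure {s, t}) : ∃ i, g = f i := by
  refine Subgroup.closure_induction_left (p := fun g _ => ∃ i, g = f i) h1 ?_ ?_ hg
  · rintro u hu y - ⟨i, rfl⟩
    rcases hu with rfl | rfl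
    · exact hs i
    · exact ht i
  · rintro u hu y - ⟨i, rfl⟩
    rcases hu with rfl | rfl
    · exact hs' i
    · exact ht' i

/-- Elementwise permutability. -/
def Perm2 (X Y : Subgroup Γ) : Prop := ∀ y ∈ Y, ∀ x ∈ X, ∃ x' ∈ X, ∃ y' ∈ Y, y * x = x' * y'

theorem Perm2.symm {X Y : Subgroup Γ} (h : Perm2 X Y) : Perm2 Y X := by
  intro x hx y hy
  obtain ⟨x', hx', y', hy', e⟩ := h y⁻¹ (Y.inv_mem hy) x⁻¹ (X.inv_mem hx)
  refine ⟨y'⁻¹, Y.inv_mem hy', x'⁻¹, X.inv_mem hx', ?_⟩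
  have := congrArg (·⁻¹) e
  simpa using this

theorem Perm2.set_eq {X Y : Subgroup Γ} (h : Perm2 X Y) :
    (X : Set Γ) * (Y : Set Γ) = (Y : Set Γ) * (X : Set Γ) := by
  apply Set.Subset.antisymm
  · rintro _ ⟨x, hx, y, hy, rfl⟩
    obtain ⟨y', hy', x', hx', e⟩ := h.symm x hx y hy
    exact ⟨y', hy', x', hx', e.symm⟩
  · rintro _ ⟨y, hy, x, hx, rfl⟩
    obtain ⟨x', hx', y', hy', e⟩ := h y hy x hx
    exact ⟨x', hx', y', hy', e.symm⟩

theorem Perm2.subgroupOf {X Y : Subgroup Γ} (h : Perm2 X Y) (K : Subgroup Γ) (hX : X ≤ K)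
    (hY : Y ≤ K) : Perm2 (X.subgroupOf K) (Y.subgroupOf K) := by
  rintro ⟨y, hyK⟩ hy ⟨x, hxK⟩ hx
  obtain ⟨x', hx', y', hy', e⟩ := h y hy x hx
  exact ⟨⟨x', hX hx'⟩, hx', ⟨y', hY hy'⟩, hy', Subtype.ext e⟩

theorem perm_pair (X : Subgroup Γ) (s t : Γ)
    (hs : ∀ x ∈ X, ∃ x' ∈ X, ∃ y ∈ Subgroup.closure {s, t}, s * x = x' * y)
    (hs' : ∀ x ∈ X, ∃ x' ∈ X, ∃ y ∈ Subgroup.closure {s, t}, s⁻¹ * x = x' * y)
    (ht : ∀ x ∈ X, ∃ x' ∈ X, ∃ y ∈ Subgroup.closure {s, t}, t * x = x' * y)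
    (ht' : ∀ x ∈ X, ∃ x' ∈ X, ∃ y ∈ Subgroup.closure {s, t}, t⁻¹ * x = x' * y) :
    Perm2 X (Subgroup.closure {s, t}) := by
  intro g hg
  have step : ∀ u y : Γ, (∀ x ∈ X, ∃ x' ∈ X, ∃ y ∈ Subgroup.closure {s, t}, u * x = x' * y) →
      (∀ x ∈ X, ∃ x' ∈ X, ∃ y' ∈ Subgroup.closure {s, t}, y * x = x' * y') →
      (∀ x ∈ X, ∃ x' ∈ X, ∃ y' ∈ Subgroup.closure {s, t}, (u * y) * x = x' * y') := by
    intro u y hu hy x hx
    obtain ⟨x1, hx1, y1, hy1, e1⟩ := hy x hx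
    obtain ⟨x2, hx2, y2, hy2, e2⟩ := hu x1 hx1
    exact ⟨x2, hx2, y2 * y1, mul_mem hy2 hy1, by
      rw [mul_assoc, e1, ← mul_assoc, e2, mul_assoc]⟩
  refine Subgroup.closure_induction_left
    (p := fun g _ => ∀ x ∈ X, ∃ x' ∈ X, ∃ y' ∈ Subgroup.closure {s, t}, g * x = x' * y')
    ?_ ?_ ?_ hg
  · intro x hx
    exact ⟨x, hx, 1, one_mem _, by simp⟩
  · rintro u hu y - hy
    rcases hu with rfl | rfl
    · exact step _ _ hs hy
    · exact step _ _ ht hy
  · rintro u hu y - hy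
    rcases hu with rfl | rfl
    · exact step _ _ hs' hy
    · exact step _ _ ht' hy

end general

/-- Permutations of eight points. -/
abbrev Γ := Equiv.Perm (Fin 8)

/-- Generators. -/
def a1 : Γ := ⟨![0, 3, 5, 6, 1, 2, 4, 7], ![0, 4, 5, 1, 6, 2, 3, 7], by decide, by decide⟩
@[inherit_doc a1]
def a2 : Γ := ⟨![0, 1, 5, 4, 3, 2, 6, 7], ![0, 1, 5, 4, 3, 2, 6, 7], by decide, by decide⟩
@[inherit_doc a1]
def b1 : Γ := ⟨![0, 2, 4, 6, 3, 1, 7, 5], ![0, 5, 1, 4, 2, 7, 3, 6], by decide, by decide⟩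
@[inherit_doc a1]
def b2 : Γ := ⟨![0, 1, 4, 5, 6, 7, 2, 3], ![0, 1, 6, 7, 2, 3, 4, 5], by decide, by decide⟩
@[inherit_doc a1]
def c1 : Γ := ⟨![1, 2, 4, 7, 0, 3, 5, 6], ![4, 0, 1, 5, 2, 6, 7, 3], by decide, by decide⟩
@[inherit_doc a1]
def c2 : Γ := ⟨![3, 5, 6, 0, 7, 1, 2, 4], ![3, 5, 6, 0, 7, 1, 2, 4], by decide, by decide⟩

/-- The elements of the three factors. -/
def fA (p : Fin 4 × Fin 2) : Γ := a1 ^ (p.1 : ℕ) * a2 ^ (p.2 : ℕ)
@[inherit_doc fA]
def fB (p : Fin 7 × Fin 3) : Γ := b1 ^ (p.1 : ℕ) * b2 ^ (p.2 : ℕ)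
@[inherit_doc fA]
def fC (p : Fin 4 × Fin 2) : Γ := c1 ^ (p.1 : ℕ) * c2 ^ (p.2 : ℕ)

/-- The three factors. -/
def A : Subgroup Γ := Subgroup.closure {a1, a2}
@[inherit_doc A]
def B : Subgroup Γ := Subgroup.closure {b1, b2}
@[inherit_doc A]
def C : Subgroup Γ := Subgroup.closure {c1, c2}

theorem a1_mem : a1 ∈ A := Subgroup.subset_closure (by simp)
theorem a2_mem : a2 ∈ A := Subgroup.subset_closure (by simp)
theorem b1_mem : b1 ∈ B := Subgroup.subset_closure (by simp)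
theorem b2_mem : b2 ∈ B := Subgroup.subset_closure (by simp)
theorem c1_mem : c1 ∈ C := Subgroup.subset_closure (by simp)
theorem c2_mem : c2 ∈ C := Subgroup.subset_closure (by simp)

theorem fA_mem (p : Fin 4 × Fin 2) : fA p ∈ A := mul_mem (pow_mem a1_mem _) (pow_mem a2_mem _)
theorem fB_mem (p : Fin 7 × Fin 3) : fB p ∈ B := mul_mem (pow_mem b1_mem _) (pow_mem b2_mem _)
theorem fC_mem (p : Fin 4 × Fin 2) : fC p ∈ C := mul_mem (pow_mem c1_mem _) (pow_mem c2_mem _)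

theorem mem_A (g : Γ) (hg : g ∈ A) : ∃ p, g = fA p :=
  mem_closure_pair a1 a2 fA (by decide) (by decide) (by decide) (by decide) (by decide) g hg
theorem mem_B (g : Γ) (hg : g ∈ B) : ∃ p, g = fB p :=
  mem_closure_pair b1 b2 fB (by decide) (by decide) (by decide) (by decide) (by decide) g hg
theorem mem_C (g : Γ) (hg : g ∈ C) : ∃ p, g = fC p :=
  mem_closure_pair c1 c2 fC (by decide) (by decide) (by decide) (by decide) (by decide) g hg

theorem perm_AB : Perm2 A B := by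
  have key : ∀ u : Γ, (∀ p, ∃ p' q', u * fA p = fA p' * fB q') →
      ∀ x ∈ A, ∃ x' ∈ A, ∃ y ∈ Subgroup.closure {b1, b2}, u * x = x' * y := by
    intro u hu x hx
    obtain ⟨p, rfl⟩ := mem_A x hx
    obtain ⟨p', q', e⟩ := hu p
    exact ⟨_, fA_mem p', _, fB_mem q', e⟩
  exact perm_pair A b1 b2 (key _ (by decide)) (key _ (by decide)) (key _ (by decide))
    (key _ (by decide))

theorem perm_AC : Perm2 A C := by
  have key : ∀ u : Γ, (∀ p, ∃ p' q', u * fA p = fA p' * fC q') →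
      ∀ x ∈ A, ∃ x' ∈ A, ∃ y ∈ Subgroup.closure {c1, c2}, u * x = x' * y := by
    intro u hu x hx
    obtain ⟨p, rfl⟩ := mem_A x hx
    obtain ⟨p', q', e⟩ := hu p
    exact ⟨_, fA_mem p', _, fC_mem q', e⟩
  exact perm_pair A c1 c2 (key _ (by decide)) (key _ (by decide)) (key _ (by decide))
    (key _ (by decide))

theorem perm_BC : Perm2 B C := by
  have key : ∀ u : Γ, (∀ p, ∃ p' q', u * fB p = fB p' * fC q') →
      ∀ x ∈ B, ∃ x' ∈ B, ∃ y ∈ Subgroup.closure {c1, c2}, u * x = x' * y := by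
    intro u hu x hx
    obtain ⟨p, rfl⟩ := mem_B x hx
    obtain ⟨p', q', e⟩ := hu p
    exact ⟨_, fB_mem p', _, fC_mem q', e⟩
  exact perm_pair B c1 c2 (key _ (by decide)) (key _ (by decide)) (key _ (by decide))
    (key _ (by decide))

/-! ### Elements of order seven and two in `A B` and `C B` -/

theorem seven_A : ∀ p q, (fA p * fB q) ^ 7 = 1 → fA p * fB q ≠ 1 →
    ∃ p' : Fin 4 × Fin 2, ∃ k : Fin 7, fA p * fB q = fA p' * b1 ^ (k : ℕ) * (fA p')⁻¹ := by
  decide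

theorem seven_C : ∀ p q, (fC p * fB q) ^ 7 = 1 → fC p * fB q ≠ 1 →
    ∃ p' : Fin 4 × Fin 2, ∃ k : Fin 7, fC p * fB q = fC p' * b1 ^ (k : ℕ) * (fC p')⁻¹ := by
  decide

theorem two_A : ∀ p q, (fA p * fB q) ^ 2 = 1 → fA p * fB q ≠ 1 →
    ∃ i : Fin 4, (fA p * fB q * (b1 ^ (i : ℕ) * (fA p * fB q) * (b1 ^ (i : ℕ))⁻¹)) ^ 3 = 1 ∧
      fA p * fB q * (b1 ^ (i : ℕ) * (fA p * fB q) * (b1 ^ (i : ℕ))⁻¹) ≠ 1 := by
  decide

theorem two_C : ∀ p q, (fC p * fB q) ^ 2 = 1 → fC p * fB q ≠ 1 →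
    ∃ i : Fin 4, (fC p * fB q * (b1 ^ (i : ℕ) * (fC p * fB q) * (b1 ^ (i : ℕ))⁻¹)) ^ 3 = 1 ∧
      fC p * fB q * (b1 ^ (i : ℕ) * (fC p * fB q) * (b1 ^ (i : ℕ))⁻¹) ≠ 1 := by
  decide

theorem no_seven : ∀ p r, (fA p * fC r) ^ 7 = 1 → fA p * fC r = 1 := by
  decide

theorem b1_pow : ∀ k : Fin 7, k ≠ 0 → ∃ j : Fin 7, b1 ^ ((k : ℕ) * (j : ℕ)) = b1 := by
  decide

/-- The common argument for `A B` and `C B`. -/
theorem no_schmidt (K : Subgroup Γ) (S : Subgroup K) (X : Subgroup Γ)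
    (hS : ∀ s ∈ S, ∃ x ∈ X, ∃ b ∈ B, ((s : K) : Γ) = x * b)
    (h7 : ∀ x ∈ X, ∀ b ∈ B, (x * b) ^ 7 = 1 → x * b ≠ 1 →
      ∃ x' ∈ X, ∃ k : Fin 7, x * b = x' * b1 ^ (k : ℕ) * x'⁻¹)
    (h2 : ∀ x ∈ X, ∀ b ∈ B, (x * b) ^ 2 = 1 → x * b ≠ 1 →
      ∃ i : ℕ, (x * b * (b1 ^ i * (x * b) * (b1 ^ i)⁻¹)) ^ 3 = 1 ∧
      x * b * (b1 ^ i * (x * b) * (b1 ^ i)⁻¹) ≠ 1)
    (hXB : Perm2 X B) : ¬ IsSchmidt 2 7 S := by
  rintro ⟨-, -, hcard, P, hP⟩
  have hd7 : 7 ∣ Nat.card S := Nat.dvd_of_mem_primeFactors (by rw [hcard]; simp)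
  have hd2 : 2 ∣ Nat.card S := Nat.dvd_of_mem_primeFactors (by rw [hcard]; simp)
  have f7 : Fact (Nat.Prime 7) := ⟨by norm_num⟩
  have f2 : Fact (Nat.Prime 2) := ⟨by norm_num⟩
  obtain ⟨g, hg⟩ := exists_prime_orderOf_dvd_card' 7 hd7
  obtain ⟨r, hr⟩ := exists_prime_orderOf_dvd_card' 2 (P.dvd_card_of_dvd_card hd2)
  have hg7 : (((g : K) : Γ)) ^ 7 = 1 := by
    have := pow_orderOf_eq_one g
    rw [hg] at this
    have := congrArg (fun z : S => ((z : K) : Γ)) this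
    simpa using this
  have hg1 : (((g : K) : Γ)) ≠ 1 := by
    intro h
    have h1 : g = 1 := by
      apply Subtype.ext; apply Subtype.ext; exact h
    rw [h1, orderOf_one] at hg
    omega
  have hr2 : (((((r : S) : K)) : Γ)) ^ 2 = 1 := by
    have := pow_orderOf_eq_one r
    rw [hr] at this
    have := congrArg (fun z : P => (((z : S) : K) : Γ)) this
    simpa using this
  have hr1 : (((((r : S) : K)) : Γ)) ≠ 1 := by
    intro h
    have h1 : r = 1 := by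
      apply Subtype.ext; apply Subtype.ext; apply Subtype.ext; exact h
    rw [h1, orderOf_one] at hr
    omega
  obtain ⟨x, hx, b, hb, e⟩ := hS g g.2
  rw [e] at hg7 hg1
  obtain ⟨x', hx', k, ek⟩ := h7 x hx b hb hg7 hg1
  have hk : k ≠ 0 := by
    rintro rfl
    apply hg1
    rw [ek]; simp
  obtain ⟨j, hj⟩ := b1_pow k hk
  have hgj : ((g : K) : Γ) ^ (j : ℕ) = x' * b1 * x'⁻¹ := by
    rw [e, ek, conj_pow, ← pow_mul, hj]
  obtain ⟨y, hy, c, hc, ey⟩ := hS r r.1.2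
  obtain ⟨x2, hx2, b2, hb2, e2⟩ := hXB c hc x' hx'
  set rr : Γ := (((r : S) : K) : Γ) with hrr
  have hr' : x'⁻¹ * rr * x' = (x'⁻¹ * y * x2) * b2 := by
    rw [ey]
    simp only [mul_assoc]
    rw [e2]
  have hconj : ∀ n : ℕ, (x'⁻¹ * rr * x') ^ n = x'⁻¹ * rr ^ n * x' := by
    intro n
    have := conj_pow (i := n) (a := x'⁻¹) (b := rr)
    simpa using this
  obtain ⟨i, hi3, hi1⟩ := h2 (x'⁻¹ * y * x2) (mul_mem (mul_mem (inv_mem hx') hy) hx2) b2 hb2
    (by rw [← hr', hconj, hr2]; simp) (by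
      rw [← hr']
      intro h
      apply hr1
      have : rr = x' * (x'⁻¹ * rr * x') * x'⁻¹ := by group
      rw [this, h]; group)
  rw [← hr'] at hi3 hi1
  -- the corresponding element of `P`
  let y1 : S := (r : S) * ((g ^ (j : ℕ)) ^ i * (r : S) * ((g ^ (j : ℕ)) ^ i)⁻¹)
  have hy1P : y1 ∈ (P : Subgroup S) := mul_mem r.2 (hP.conj_mem _ r.2 _)
  have hy1 : ((y1 : K) : Γ) =
      x' * ((x'⁻¹ * rr * x') * (b1 ^ i * (x'⁻¹ * rr * x') * (b1 ^ i)⁻¹)) * x'⁻¹ := by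
    have h1 : ((y1 : K) : Γ) = rr * ((((g : K) : Γ) ^ (j : ℕ)) ^ i * rr *
        ((((g : K) : Γ) ^ (j : ℕ)) ^ i)⁻¹) := by
      simp [y1, hrr]
    rw [h1, hgj, conj_pow]
    group
  have hy3 : y1 ^ 3 = 1 := by
    apply Subtype.ext; apply Subtype.ext
    show ((y1 : K) : Γ) ^ 3 = 1
    rw [hy1, conj_pow, hi3]
    simp
  have hyne : y1 ≠ 1 := by
    intro h
    apply hi1
    have h1 : ((y1 : K) : Γ) = 1 := by rw [h]; rfl
    rw [hy1] at h1
    have := congrArg (fun z => x'⁻¹ * z * x') h1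
    simpa [mul_assoc] using this
  obtain ⟨n, hn⟩ := P.isPGroup' ⟨y1, hy1P⟩
  have hn' : y1 ^ 2 ^ n = 1 := congrArg Subtype.val hn
  have hd : orderOf y1 ∣ Nat.gcd 3 (2 ^ n) :=
    Nat.dvd_gcd (orderOf_dvd_of_pow_eq_one hy3) (orderOf_dvd_of_pow_eq_one hn')
  have hcop : Nat.gcd 3 (2 ^ n) = 1 := Nat.Coprime.pow_right n (by norm_num)
  rw [hcop, Nat.dvd_one, orderOf_eq_one_iff] at hd
  exact hyne hd

/-! ### The group `AGL(3, 2)` -/

/-- `AGL(3, 2)`. -/
def K : Subgroup Γ := A ⊔ (B ⊔ C)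

theorem A_le : A ≤ K := le_sup_left
theorem B_le : B ≤ K := le_sup_left.trans le_sup_right
theorem C_le : C ≤ K := le_sup_right.trans le_sup_right

theorem K_eq : K = Subgroup.closure ((A : Set Γ) ∪ ((B : Set Γ) ∪ (C : Set Γ))) := by
  rw [K, Subgroup.closure_union, Subgroup.closure_union]
  simp only [Subgroup.closure_eq]

theorem mem_K (g : Γ) (hg : g ∈ K) : ∃ a ∈ A, ∃ b ∈ B, ∃ c ∈ C, g = a * b * c := by
  have step : ∀ u : Γ, u ∈ ((A : Set Γ) ∪ ((B : Set Γ) ∪ (C : Set Γ))) → ∀ y : Γ,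
      (∃ a ∈ A, ∃ b ∈ B, ∃ c ∈ C, y = a * b * c) →
      (∃ a ∈ A, ∃ b ∈ B, ∃ c ∈ C, u * y = a * b * c) := by
    rintro u hu y ⟨a, ha, b, hb, c, hc, rfl⟩
    rcases hu with hu | hu | hu
    · exact ⟨u * a, mul_mem hu ha, b, hb, c, hc, by simp only [mul_assoc]⟩
    · obtain ⟨a', ha', b', hb', e⟩ := perm_AB u hu a ha
      refine ⟨a', ha', b' * b, mul_mem hb' hb, c, hc, ?_⟩
      rw [← mul_assoc, ← mul_assoc, e]
      simp only [mul_assoc]
    · obtain ⟨a', ha', c', hc', e⟩ := perm_AC u hu a ha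
      obtain ⟨b', hb', c'', hc'', e'⟩ := perm_BC c' hc' b hb
      refine ⟨a', ha', b', hb', c'' * c, mul_mem hc'' hc, ?_⟩
      calc u * (a * b * c) = (u * a) * b * c := by simp only [mul_assoc]
        _ = a' * (c' * b) * c := by rw [e]; simp only [mul_assoc]
        _ = a' * b' * (c'' * c) := by rw [e']; simp only [mul_assoc]
  rw [K_eq] at hg
  refine Subgroup.closure_induction_left
    (p := fun g _ => ∃ a ∈ A, ∃ b ∈ B, ∃ c ∈ C, g = a * b * c) ?_ ?_ ?_ hg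
  · exact ⟨1, one_mem _, 1, one_mem _, 1, one_mem _, by simp⟩
  · intro u hu y _ hy
    exact step u hu y hy
  · intro u hu y _ hy
    refine step u⁻¹ ?_ y hy
    rcases hu with hu | hu | hu
    · exact Or.inl (inv_mem hu)
    · exact Or.inr (Or.inl (inv_mem hu))
    · exact Or.inr (Or.inr (inv_mem hu))

/-! ### A Schmidt `(2, 7)`-subgroup of `AGL(3, 2)` -/

/-- Translations. -/
def tr (v : Fin 8) : Γ :=
  ⟨fun i => i ^^^ v, fun i => i ^^^ v, by revert v; decide, by revert v; decide⟩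

/-- Elements of `2 ^ 3 : 7`. -/
def fS (p : Fin 8 × Fin 7) : Γ := tr p.1 * b1 ^ (p.2 : ℕ)

/-- The group `2 ^ 3 : 7`. -/
def S0 : Subgroup Γ := Subgroup.closure {tr 1, b1}

theorem mem_S0 (g : Γ) (hg : g ∈ S0) : ∃ p, g = fS p :=
  mem_closure_pair (tr 1) b1 fS (by decide) (by decide) (by decide) (by decide) (by decide) g hg

theorem tr1_mem : tr 1 ∈ S0 := Subgroup.subset_closure (by simp)
theorem b1_mem_S0 : b1 ∈ S0 := Subgroup.subset_closure (by simp)

theorem tr_mem (v : Fin 8) : tr v ∈ S0 := by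
  have h : ∀ v : Fin 8, tr v = 1 ∨ ∃ k : Fin 7, tr v = b1 ^ (k : ℕ) * tr 1 * (b1 ^ (k : ℕ))⁻¹ := by
    decide
  rcases h v with h | ⟨k, h⟩
  · rw [h]; exact one_mem _
  · rw [h]
    exact mul_mem (mul_mem (pow_mem b1_mem_S0 _) tr1_mem) (inv_mem (pow_mem b1_mem_S0 _))

theorem S0_le : S0 ≤ K := by
  rw [S0, Subgroup.closure_le]
  rintro _ (rfl | rfl)
  · have h : ∃ p q r, tr 1 = fA p * fB q * fC r := by decide
    obtain ⟨p, q, r, h⟩ := h
    rw [h]
    exact mul_mem (mul_mem (A_le (fA_mem _)) (B_le (fB_mem _))) (C_le (fC_mem _))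
  · exact B_le b1_mem

/-- `S0` as a subgroup of `K`. -/
abbrev S0K : Subgroup K := S0.subgroupOf K

theorem fS_pow14 : ∀ p, fS p ^ 14 = 1 := by decide

theorem fS_sq : ∀ p, (∃ v, fS p ^ 2 = tr v) → ∃ v, fS p = tr v := by decide

theorem tr_mul : ∀ v w, ∃ u, tr v * tr w = tr u := by decide

theorem tr_sq : ∀ v, tr v ^ 2 = 1 := by decide

theorem tr_conj : ∀ p v, ∃ w, fS p * tr v * (fS p)⁻¹ = tr w := by decide

theorem tr_comm : ∀ v, ∃ w, tr v = tr w * b1 * (tr w)⁻¹ * b1⁻¹ := by decide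

open scoped commutatorElement in
theorem S0K_not_nilpotent : ¬ Group.IsNilpotent S0K := by
  intro h
  obtain ⟨n, hn⟩ := Subgroup.nilpotent_iff_lowerCentralSeries.1 h
  let t : Fin 8 → S0K := fun v => ⟨⟨tr v, S0_le (tr_mem v)⟩, tr_mem v⟩
  let b : S0K := ⟨⟨b1, S0_le b1_mem_S0⟩, b1_mem_S0⟩
  have key : ∀ n v, t v ∈ (⊤ : Subgroup S0K).lowerCentralSeries n := by
    intro n
    induction n with
    | zero => intro v; exact Subgroup.mem_top _
    | succ n ih =>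
      intro v
      obtain ⟨w, hw⟩ := tr_comm v
      have : t v = ⁅t w, b⁆ := by
        rw [commutatorElement_def]
        apply Subtype.ext; apply Subtype.ext
        exact hw
      rw [this]
      exact Subgroup.commutator_mem_commutator (ih w) (Subgroup.mem_top _)
  have h1 := key n 1
  rw [hn, Subgroup.mem_bot] at h1
  have h2 : tr 1 = 1 := congrArg (fun z : S0K => ((z : K) : Γ)) h1
  exact absurd h2 (by decide)

/-- There is a Schmidt `(2, 7)`-subgroup. -/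
theorem exists_schmidt : ∃ S : Subgroup K, IsSchmidt 2 7 S := by
  have f7 : Fact (Nat.Prime 7) := ⟨by norm_num⟩
  have f2 : Fact (Nat.Prime 2) := ⟨by norm_num⟩
  obtain ⟨S, ⟨hS, hSn⟩, hmin⟩ := (wellFounded_lt (α := Subgroup K)).has_min
    {T : Subgroup K | T ≤ S0K ∧ ¬ Group.IsNilpotent T} ⟨S0K, le_rfl, S0K_not_nilpotent⟩
  have hmem : ∀ s : S, ∃ p, ((s : K) : Γ) = fS p := fun s => mem_S0 _ (hS s.2)
  have h14 : ∀ s : S, s ^ 14 = 1 := by
    intro s
    obtain ⟨p, hp⟩ := hmem s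
    apply Subtype.ext; apply Subtype.ext
    show ((s : K) : Γ) ^ 14 = 1
    rw [hp, fS_pow14]
  have hprime : ∀ p : ℕ, p.Prime → p ∣ Nat.card S → p = 2 ∨ p = 7 := by
    intro p hp hd
    have fp : Fact p.Prime := ⟨hp⟩
    obtain ⟨g, hg⟩ := exists_prime_orderOf_dvd_card' p hd
    have h1 : p ∣ 14 := hg ▸ orderOf_dvd_of_pow_eq_one (h14 g)
    have h2 : p ∣ 2 * 7 := h1
    rcases (Nat.Prime.dvd_mul hp).1 h2 with h | h
    · left; exact (Nat.prime_dvd_prime_iff_eq hp (by norm_num)).1 h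
    · right; exact (Nat.prime_dvd_prime_iff_eq hp (by norm_num)).1 h
  have hnotp : ∀ p : ℕ, p.Prime → (∀ q : ℕ, q.Prime → q ∣ Nat.card S → q = p) → False := by
    intro p hp h
    have fp : Fact p.Prime := ⟨hp⟩
    apply hSn
    have h1 : IsPGroup p S := by
      rw [IsPGroup.iff_card]
      exact ⟨_, Nat.eq_prime_pow_of_unique_prime_dvd Nat.card_pos.ne' fun {q} hq hqd => h q hq hqd⟩
    exact h1.isNilpotent
  have hd2 : 2 ∣ Nat.card S := by
    by_contra hnd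
    refine hnotp 7 (by norm_num) fun q hq hqd => ?_
    rcases hprime q hq hqd with rfl | rfl
    · exact absurd hqd hnd
    · rfl
  have hd7 : 7 ∣ Nat.card S := by
    by_contra hnd
    refine hnotp 2 (by norm_num) fun q hq hqd => ?_
    rcases hprime q hq hqd with rfl | rfl
    · rfl
    · exact absurd hqd hnd
  refine ⟨S, hSn, ?_, ?_, ?_⟩
  · intro T hT
    by_contra hTn
    have e := T.equivMapOfInjective S.subtype S.subtype_injective
    have h1 : ¬ Group.IsNilpotent (T.map S.subtype) := by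
      rwa [← Group.isNilpotent_congr e]
    have h2 : T.map S.subtype ≤ S := Subgroup.map_subtype_le T
    have h3 : T.map S.subtype ≠ S := by
      intro h
      apply hT
      rw [eq_top_iff]
      intro s _
      have : (s : K) ∈ T.map S.subtype := by rw [h]; exact s.2
      obtain ⟨t, ht, hts⟩ := this
      have : t = s := Subtype.ext hts
      exact this ▸ ht
    exact hmin _ ⟨h2.trans hS, h1⟩ (lt_of_le_of_ne h2 h3)
  · ext q
    rw [Nat.mem_primeFactors]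
    constructor
    · rintro ⟨hq, hqd, -⟩
      rcases hprime q hq hqd with rfl | rfl <;> simp
    · intro hq
      have : q = 2 ∨ q = 7 := by simpa using hq
      rcases this with rfl | rfl
      · exact ⟨by norm_num, hd2, Nat.card_pos.ne'⟩
      · exact ⟨by norm_num, hd7, Nat.card_pos.ne'⟩
  · -- the normal Sylow 2-subgroup
    let P : Subgroup S :=
      { carrier := {s | ∃ v, ((s : K) : Γ) = tr v}
        one_mem' := ⟨0, by show (1 : Γ) = tr 0; decide⟩
        mul_mem' := by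
          rintro a b ⟨v, hv⟩ ⟨w, hw⟩
          obtain ⟨u, hu⟩ := tr_mul v w
          exact ⟨u, by
            show ((a : K) : Γ) * ((b : K) : Γ) = tr u
            rw [hv, hw, hu]⟩
        inv_mem' := by
          rintro a ⟨v, hv⟩
          refine ⟨v, ?_⟩
          show (((a : K) : Γ))⁻¹ = tr v
          rw [hv]
          have := tr_sq v
          rw [sq] at this
          exact inv_eq_of_mul_eq_one_left this }
    have hPn : P.Normal := by
      constructor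
      rintro a ⟨v, hv⟩ g
      obtain ⟨p, hp⟩ := hmem g
      obtain ⟨w, hw⟩ := tr_conj p v
      exact ⟨w, by
        show ((g : K) : Γ) * ((a : K) : Γ) * (((g : K) : Γ))⁻¹ = tr w
        rw [hv, hp, hw]⟩
    have hPp : IsPGroup 2 P := by
      rintro ⟨a, v, hv⟩
      refine ⟨1, ?_⟩
      apply Subtype.ext; apply Subtype.ext; apply Subtype.ext
      show ((a : K) : Γ) ^ 2 ^ 1 = 1
      rw [hv, pow_one, tr_sq]
    have hidx : ¬ 2 ∣ P.index := by
      intro h2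
      rw [Subgroup.index_eq_card] at h2
      obtain ⟨x, hx⟩ := exists_prime_orderOf_dvd_card' 2 h2
      obtain ⟨g, rfl⟩ := QuotientGroup.mk_surjective x
      have h1 : (g : S ⧸ P) ^ 2 = 1 := by
        have := pow_orderOf_eq_one (g : S ⧸ P)
        rwa [hx] at this
      rw [← QuotientGroup.mk_pow, QuotientGroup.eq_one_iff] at h1
      obtain ⟨v, hv⟩ := h1
      obtain ⟨p, hp⟩ := hmem g
      have h3 : fS p ^ 2 = tr v := by
        rw [← hp]; exact hv
      obtain ⟨w, hw⟩ := fS_sq p ⟨v, h3⟩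
      have h4 : g ∈ P := ⟨w, by rw [hp, hw]⟩
      rw [(QuotientGroup.eq_one_iff g).2 h4, orderOf_one] at hx
      omega
    exact ⟨hPp.toSylow hidx, hPn⟩

/-- There are a finite group `G` and three pairwise permutable subgroups `H 0`, `H 1`, `H 2` with
`G = H 0 * H 1 * H 2` such that, for suitable primes `p` and `q`, the group `G` has a Schmidt
`(p, q)`-subgroup, while none of the products `H i * H j` contains one. -/
theorem result :
    ∃ (G : Type) (_ : Group G) (_ : Finite G) (H : Fin 3 → Subgroup G),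
      (∀ i j, (H i : Set G) * (H j : Set G) = (H j : Set G) * (H i : Set G)) ∧
      (∀ g : G, ∃ a ∈ H 0, ∃ b ∈ H 1, ∃ c ∈ H 2, g = a * b * c) ∧
      ∃ p q : ℕ, p.Prime ∧ q.Prime ∧ (∃ S : Subgroup G, IsSchmidt p q S) ∧
        ∀ i j, i < j → ∀ S : Subgroup G, (S : Set G) ⊆ (H i : Set G) * (H j : Set G) →
          ¬ IsSchmidt p q S := by
  let H : Fin 3 → Subgroup K := ![A.subgroupOf K, B.subgroupOf K, C.subgroupOf K]
  have hAB := (perm_AB.subgroupOf K A_le B_le)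
  have hAC := (perm_AC.subgroupOf K A_le C_le)
  have hBC := (perm_BC.subgroupOf K B_le C_le)
  have hcase : ∀ i : Fin 3, i = 0 ∨ i = 1 ∨ i = 2 := by decide
  refine ⟨K, inferInstance, inferInstance, H, ?_, ?_, 2, 7, by norm_num, by norm_num,
    exists_schmidt, ?_⟩
  · intro i j
    rcases hcase i with rfl | rfl | rfl <;> rcases hcase j with rfl | rfl | rfl
    · rfl
    · exact hAB.set_eq
    · exact hAC.set_eq
    · exact hAB.set_eq.symm
    · rfl
    · exact hBC.set_eq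
    · exact hAC.set_eq.symm
    · exact hBC.set_eq.symm
    · rfl
  · rintro ⟨g, hg⟩
    obtain ⟨a, ha, b, hb, c, hc, e⟩ := mem_K g hg
    exact ⟨⟨a, A_le ha⟩, ha, ⟨b, B_le hb⟩, hb, ⟨c, C_le hc⟩, hc, Subtype.ext e⟩
  · intro i j hij S hS
    have hdec : ∀ i j : Fin 3, i < j → (i = 0 ∧ j = 1) ∨ (i = 0 ∧ j = 2) ∨ (i = 1 ∧ j = 2) := by
      decide
    have hij' := hdec i j hij
    rcases hij' with ⟨rfl, rfl⟩ | ⟨rfl, rfl⟩ | ⟨rfl, rfl⟩
    · refine no_schmidt K S A ?_ ?_ ?_ perm_AB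
      · intro s hs
        obtain ⟨x, hx, y, hy, e⟩ := hS hs
        exact ⟨x, hx, y, hy, (congrArg Subtype.val e).symm⟩
      · intro x hx b hb h7 h1
        obtain ⟨p, rfl⟩ := mem_A x hx
        obtain ⟨q, rfl⟩ := mem_B b hb
        obtain ⟨p', k, e⟩ := seven_A p q h7 h1
        exact ⟨fA p', fA_mem _, k, e⟩
      · intro x hx b hb h2 h1
        obtain ⟨p, rfl⟩ := mem_A x hx
        obtain ⟨q, rfl⟩ := mem_B b hb
        obtain ⟨i, e⟩ := two_A p q h2 h1
        exact ⟨i, e⟩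
    · rintro ⟨-, -, hcard, -⟩
      have hd7 : 7 ∣ Nat.card S := Nat.dvd_of_mem_primeFactors (by rw [hcard]; simp)
      have f7 : Fact (Nat.Prime 7) := ⟨by norm_num⟩
      obtain ⟨g, hg⟩ := exists_prime_orderOf_dvd_card' 7 hd7
      obtain ⟨x, hx, y, hy, e⟩ := hS g.2
      have e' : (x : Γ) * (y : Γ) = ((g : K) : Γ) := congrArg Subtype.val e
      obtain ⟨p, hp⟩ := mem_A x hx
      obtain ⟨r, hr⟩ := mem_C y hy
      have hg7 : (((g : K) : Γ)) ^ 7 = 1 := by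
        have := pow_orderOf_eq_one g
        rw [hg] at this
        have := congrArg (fun z : S => ((z : K) : Γ)) this
        simpa using this
      rw [← e', hp, hr] at hg7
      have h1 := no_seven p r hg7
      rw [← hp, ← hr, e'] at h1
      have h2 : g = 1 := by
        apply Subtype.ext; apply Subtype.ext; exact h1
      rw [h2, orderOf_one] at hg
      omega
    · refine no_schmidt K S C ?_ ?_ ?_ perm_BC.symm
      · intro s hs
        have hS' := hS hs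
        have : (H 1 : Set K) * (H 2 : Set K) = (H 2 : Set K) * (H 1 : Set K) := hBC.set_eq
        rw [this] at hS'
        obtain ⟨x, hx, y, hy, e⟩ := hS'
        exact ⟨x, hx, y, hy, (congrArg Subtype.val e).symm⟩
      · intro x hx b hb h7 h1
        obtain ⟨p, rfl⟩ := mem_C x hx
        obtain ⟨q, rfl⟩ := mem_B b hb
        obtain ⟨p', k, e⟩ := seven_C p q h7 h1
        exact ⟨fC p', fC_mem _, k, e⟩
      · intro x hx b hb h2 h1
        obtain ⟨p, rfl⟩ := mem_C x hx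
        obtain ⟨q, rfl⟩ := mem_B b hb
        obtain ⟨i, e⟩ := two_C p q h2 h1
        exact ⟨i, e⟩

end Pool.Agent.Results.MP_19cc1b_al.ThreeFactors
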